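import Pool.Agent.Q267.GBP2.Lower
import Pool.Agent.Q267.GBP2.Upper2
import Pool.Agent.Q267.GBP2.Transport
import Mathlib.Analysis.SpecialFunctions.Log.Base

/-!
# A graph `H` with `M_H(n) / M'_H(n) → ∞`
-/

namespace Pool.Agent.Results.MP_000f96_co.PercolatingSlower

open SimpleGraph Pool.Agent.Q267.GBP Pool.Agent.Q267.GBP2

/-- `M'_H(n)`: the maximum running time `τ_H(G)` over the graphs `G` on `n` vertices for which
`G_{τ_H(G)}` is the complete graph. -/
noncomputable def percTime {W : Type*} (H : SimpleGraph W) (n : ℕ) : ℕ :=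
  sSup {τ : ℕ | ∃ G : SimpleGraph (Fin n), proc H G (runTime H G) = ⊤ ∧ τ = runTime H G}

theorem percTime_le (n : ℕ) (hn : 16 ≤ n) : percTime HX n ≤ 121 * n + 30 := by
  apply csSup_le'
  rintro τ ⟨G, hG, rfl⟩
  have := perc_bound (G := G) ⟨_, hG⟩ (by rw [Fintype.card_fin]; exact hn)
  rwa [Fintype.card_fin] at this

theorem maxTime_ge (n C N : ℕ) (hN : ∀ c < C + 1, 2 * d c + 10 ≤ N)
    (hn : 6 * N + 4 * (C + 1) + 8 ≤ n) : C * (N + 2) + N ≤ maxTime HX n := by
  have : Infinite Lab := Infinite.of_injective Lab.P (fun a b h => Lab.P.inj h)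
  obtain ⟨S, hS, hSc⟩ := Infinite.exists_superset_card_eq (verts (C + 1) N) n
    ((verts_card _ _).trans hn)
  have h3 : 3 ≤ N := by
    have := hN C (Nat.lt_succ_self C)
    omega
  refine (time_ge (V := {u // u ∈ S}) (lab := Subtype.val) C N hN h3 Subtype.val_injective
    (fun u hu => ⟨⟨u, hS hu⟩, rfl⟩)).trans (runTime_le_maxTime _ ?_)
  rw [Fintype.card_coe, hSc]

theorem d_mono {a b : ℕ} (h : a ≤ b) : d a ≤ d b := by
  unfold d
  exact Nat.mul_le_mul_left _ (Nat.pow_le_pow_right (by norm_num) h)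

/-- The quantitative lower bound. -/
theorem maxTime_log (n : ℕ) (hn : 3 ^ 12 ≤ n) : n * Nat.log 3 n ≤ 32 * maxTime HX n := by
  have hlog : 12 ≤ Nat.log 3 n := Nat.le_log_of_pow_le (by norm_num) hn
  obtain ⟨C, hC⟩ : ∃ C, Nat.log 3 n = C + 6 := ⟨Nat.log 3 n - 6, by omega⟩
  have hpow : 3 ^ (C + 6) ≤ n := by
    rw [← hC]; exact Nat.pow_log_le_self 3 (by omega)
  have h729 : 3 ^ C * 729 ≤ n := by
    have : (3 : ℕ) ^ (C + 6) = 3 ^ C * 729 := by rw [pow_add]; norm_num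
    omega
  have hbig : 531441 ≤ n := by norm_num at hn; exact hn
  have hC3 : ∀ m : ℕ, 2 * m + 1 ≤ 3 ^ m := by
    intro m
    induction m with
    | zero => norm_num
    | succ m ih => rw [pow_succ]; omega
  have hCn := hC3 C
  have hN : ∀ c < C + 1, 2 * d c + 10 ≤ n / 8 := by
    intro c hc
    have h1 := d_mono (show c ≤ C by omega)
    have h2 : d C = 8 * 3 ^ C := rfl
    omega
  have h1 := maxTime_ge n C (n / 8) hN (by omega)
  have h2 : n * (C + 6) ≤ 32 * (C * (n / 8 + 2) + n / 8) := by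
    have h3 : n ≤ 8 * (n / 8) + 7 := by omega
    have h4 : 6 ≤ C := by omega
    have h5 : n * (C + 6) ≤ n * (2 * C) := Nat.mul_le_mul_left _ (by omega)
    have h6 : n * (2 * C) ≤ (8 * (n / 8) + 7) * (2 * C) := Nat.mul_le_mul_right _ h3
    nlinarith
  rw [hC]
  exact h2.trans (Nat.mul_le_mul_left _ h1)

theorem ratio (K : ℕ) : ∃ n0, ∀ n ≥ n0, K * percTime HX n ≤ maxTime HX n ∧
    0 < percTime HX n + maxTime HX n := by
  refine ⟨3 ^ (32 * 152 * K + 12), ?_⟩
  intro n hn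
  have h12 : 3 ^ 12 ≤ n := (Nat.pow_le_pow_right (by norm_num) (by omega)).trans hn
  have hbig : 531441 ≤ n := by norm_num at h12; exact h12
  have h1 := maxTime_log n h12
  have h2 := percTime_le n (by omega)
  have h3 : 32 * 152 * K + 12 ≤ Nat.log 3 n := Nat.le_log_of_pow_le (by norm_num) hn
  have h4 : n * (32 * 152 * K + 12) ≤ n * Nat.log 3 n := Nat.mul_le_mul_left _ h3
  have h5 : percTime HX n ≤ 152 * n := by omega
  have h6 : K * percTime HX n ≤ K * (152 * n) := Nat.mul_le_mul_left _ h5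
  constructor
  · nlinarith
  · nlinarith

/-- The disproof. -/
theorem result :
    (∀ n, 16 ≤ n → percTime HX n ≤ 121 * n + 30) ∧
    (∀ n, 3 ^ 12 ≤ n → n * Nat.log 3 n ≤ 32 * maxTime HX n) ∧
    (∀ K : ℕ, ∃ n0, ∀ n ≥ n0, K * percTime HX n < maxTime HX n) ∧
    ¬ (∀ (k : ℕ) (H : SimpleGraph (Fin k)), ∃ c C : ℝ, 0 < c ∧ 0 < C ∧ ∃ n0 : ℕ, ∀ n ≥ n0,
      c * (percTime H n : ℝ) ≤ (maxTime H n : ℝ) ∧
      (maxTime H n : ℝ) ≤ C * (percTime H n : ℝ)) := by
  have hratio : ∀ K : ℕ, ∃ n0, ∀ n ≥ n0, K * percTime HX n < maxTime HX n := by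
    intro K
    obtain ⟨n0, h0⟩ := ratio (K + 1)
    refine ⟨n0, fun n hn => ?_⟩
    obtain ⟨h1, h2⟩ := h0 n hn
    rcases Nat.eq_zero_or_pos (percTime HX n) with h3 | h3
    · rw [h3] at h2 ⊢
      omega
    · have : (K + 1) * percTime HX n = K * percTime HX n + percTime HX n := by ring
      omega
  refine ⟨percTime_le, maxTime_log, hratio, ?_⟩
  intro hall
  obtain ⟨c, C, _, hC, n0, h⟩ := hall 12 HX
  obtain ⟨K, hK⟩ := exists_nat_ge C
  obtain ⟨n1, h1⟩ := hratio K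
  have h2 := (h (max n0 n1) (le_max_left _ _)).2
  have h3 := h1 (max n0 n1) (le_max_right _ _)
  have h4 : ((K * percTime HX (max n0 n1) : ℕ) : ℝ) < (maxTime HX (max n0 n1) : ℝ) := by
    exact_mod_cast h3
  push_cast at h4
  have h5 : C * (percTime HX (max n0 n1) : ℝ) ≤ (K : ℝ) * (percTime HX (max n0 n1) : ℝ) :=
    mul_le_mul_of_nonneg_right hK (Nat.cast_nonneg _)
  linarith

end Pool.Agent.Results.MP_000f96_co.PercolatingSlower
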